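import Pool.Agent.Helper92.GV.Last

/-!
# Generic curves of ovals (MP_fb29e9_nt): every lattice
-/

open MeasureTheory Real Set Filter Topology

set_option autoImplicit false

namespace Pool.Agent.Helper92.GV

open Pool.Agent.Helper22.AE
open Pool.Agent.Helper22.AC (cntc ga)
open Pool.Agent.Helper92.LA (lcnt lcnt_eq dl fdet_dl)
open Pool.Agent.Helper22.LP
open Pool.Agent.Helper75.GCF (Mo vel rho_cont Hd Hd_sm Ds Ds_at Ds_hd)

/-- the radius of curvature in the coordinates of the lattice -/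
theorem rho_Hf {H : ℝ → ℝ} (h2 : ContDiff ℝ 2 H) (hp : Function.Periodic H (2 * π)) {f : Fr} (hf : fdet f ≠ 0) (t : ℝ) :
    rho (Hf H f) t = rho H (th f t) * (fdet f ^ 2 / (qa f t * sqrt (qa f t))) := by
  have hG1 : ContDiff ℝ 1 (deriv H) := by
    have h : ContDiff ℝ (1 + 1) H := by
      have e : (1 + 1 : WithTop ℕ∞) = 2 := by norm_num
      rw [e]
      exact h2
    exact (contDiff_succ_iff_deriv.1 h).2.2
  have hd : Differentiable ℝ H := h2.differentiable (by norm_num)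
  have hd1 : Differentiable ℝ (deriv H) := hG1.differentiable (by norm_num)
  set x1 : ℝ → ℝ := fun s => H (th f s) * cos (th f s) - deriv H (th f s) * sin (th f s) with hx1
  set x2 : ℝ → ℝ := fun s => H (th f s) * sin (th f s) + deriv H (th f s) * cos (th f s) with hx2
  have hcos : ∀ s, HasDerivAt (fun s => cos (th f s)) (-sin (th f s) * (fdet f / qa f s)) s := fun s => (th_deriv hf s).cos
  have hsin : ∀ s, HasDerivAt (fun s => sin (th f s)) (cos (th f s) * (fdet f / qa f s)) s := fun s => (th_deriv hf s).sin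
  have hHt : ∀ s, HasDerivAt (fun s => H (th f s)) (deriv H (th f s) * (fdet f / qa f s)) s := fun s =>
    HasDerivAt.comp s (hd (th f s)).hasDerivAt (th_deriv hf s)
  have hHt1 : ∀ s, HasDerivAt (fun s => deriv H (th f s)) (deriv (deriv H) (th f s) * (fdet f / qa f s)) s := fun s =>
    HasDerivAt.comp s (hd1 (th f s)).hasDerivAt (th_deriv hf s)
  have hdx1 : ∀ s, HasDerivAt x1 (-(rho H (th f s) * sin (th f s) * (fdet f / qa f s))) s := by
    intro s
    have h := ((hHt s).mul (hcos s)).sub ((hHt1 s).mul (hsin s))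
    refine h.congr_deriv ?_
    unfold rho
    ring
  have hdx2 : ∀ s, HasDerivAt x2 (rho H (th f s) * cos (th f s) * (fdet f / qa f s)) s := by
    intro s
    have h := ((hHt s).mul (hsin s)).add ((hHt1 s).mul (hcos s))
    refine h.congr_deriv ?_
    unfold rho
    ring
  have hT : Hf H f = fun s => a1 f s * x1 s + a2 f s * x2 s := by
    funext s
    rw [Hf_eq hp hf]
    obtain ⟨h1, h2⟩ := a_polar hf s
    rw [h1, h2, hx1, hx2]
    have hcs := sin_sq_add_cos_sq (th f s)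
    simp only
    linear_combination (-(sqrt (qa f s)) * H (th f s)) * hcs
  have hT1 : deriv (Hf H f) = fun s => b1 f s * x1 s + b2 f s * x2 s := by
    rw [hT]
    funext s
    have h := ((a1_deriv f s).mul (hdx1 s)).add ((a2_deriv f s).mul (hdx2 s))
    have h' := h.deriv
    have e : (fun s => a1 f s * x1 s + a2 f s * x2 s) = (a1 f * x1 + a2 f * x2) := rfl
    rw [e, h']
    obtain ⟨h1, h2⟩ := a_polar hf s
    have h3 : -a1 f s * sin (th f s) + a2 f s * cos (th f s) = 0 := by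
      rw [h1, h2]
      ring
    linear_combination (rho H (th f s) * (fdet f / qa f s)) * h3
  have hT2 : deriv (deriv (Hf H f)) t = -(Hf H f t) + rho H (th f t) * (fdet f / qa f t) *
      (-b1 f t * sin (th f t) + b2 f t * cos (th f t)) := by
    rw [hT1]
    have h := ((b1_deriv f t).mul (hdx1 t)).add ((b2_deriv f t).mul (hdx2 t))
    have h' := h.deriv
    have e : (fun s => b1 f s * x1 s + b2 f s * x2 s) = (b1 f * x1 + b2 f * x2) := rfl
    rw [e, h', hT]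
    ring
  have hs : 0 < sqrt (qa f t) := sqrt_pos.2 (qa_pos hf t)
  have hq : 0 < qa f t := qa_pos hf t
  have hN : -b1 f t * sin (th f t) + b2 f t * cos (th f t) = fdet f / sqrt (qa f t) := by
    rw [eq_div_iff hs.ne', ← ab_det f t]
    obtain ⟨h1, h2⟩ := a_polar hf t
    calc (-b1 f t * sin (th f t) + b2 f t * cos (th f t)) * sqrt (qa f t) =
          b2 f t * (sqrt (qa f t) * cos (th f t)) - b1 f t * (sqrt (qa f t) * sin (th f t)) := by ring
      _ = _ := by rw [← h1, ← h2]; ring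
  have e1 : rho (Hf H f) t = Hf H f t + deriv (deriv (Hf H f)) t := rfl
  rw [e1, hT2, hN]
  field_simp
  ring

/-- the family in the coordinates of the lattice -/
theorem Hf_joint {H : ℝ → ℝ → ℝ} (h : ContDiff ℝ 7 fun q : ℝ × ℝ => H q.1 q.2) (hp : ∀ s, Function.Periodic (H s) (2 * π)) {f : Fr} (hf : fdet f ≠ 0) :
    ContDiff ℝ 7 fun q : ℝ × ℝ => Hf (H q.1) f q.2 := by
  have e : (fun q : ℝ × ℝ => Hf (H q.1) f q.2) = fun q : ℝ × ℝ => sqrt (qa f q.2) * H q.1 (th f q.2) := by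
    funext q
    exact Hf_eq (hp q.1) hf q.2
  rw [e]
  have h1 : ContDiff ℝ 7 (qa f) := by exact_mod_cast qa_contDiff f 7
  have h2 : ContDiff ℝ 7 (th f) := by exact_mod_cast th_contDiff hf 6
  have h3 : ContDiff ℝ 7 fun q : ℝ × ℝ => sqrt (qa f q.2) := (h1.comp contDiff_snd).sqrt fun q => (qa_pos hf q.2).ne'
  have h4 : ContDiff ℝ 7 fun q : ℝ × ℝ => ((q.1, th f q.2) : ℝ × ℝ) := contDiff_fst.prodMk (h2.comp contDiff_snd)
  exact h3.mul (h.comp h4)

private theorem rho_joint92 {H : ℝ → ℝ → ℝ} (h : ContDiff ℝ 7 fun q : ℝ × ℝ => H q.1 q.2) : ContDiff ℝ ((5 : ℕ) : ℕ∞) fun q : ℝ × ℝ => rho (H q.1) q.2 := by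
  have h0 : ContDiff ℝ ((6 + 1 : ℕ) : ℕ∞) fun q : ℝ × ℝ => H q.1 q.2 := h.of_le (by norm_cast)
  have h1 : ContDiff ℝ ((5 + 1 : ℕ) : ℕ∞) fun q : ℝ × ℝ => Hd H q.1 q.2 := Hd_sm h0
  have h2 : ContDiff ℝ ((5 : ℕ) : ℕ∞) fun q : ℝ × ℝ => Hd (Hd H) q.1 q.2 := Hd_sm h1
  exact (h.of_le (by norm_cast)).add h2

/-- the velocity as a function of the direction -/
private theorem vel_sm92 {H : ℝ → ℝ → ℝ} (h : ContDiff ℝ 7 fun q : ℝ × ℝ => H q.1 q.2) {s₀ : ℝ} (hr : ∀ θ, 0 < rho (H s₀) θ) : ContDiff ℝ 2 (vel H s₀) := by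
  obtain ⟨L, hL⟩ : ∃ L : ℝ × ℝ × ℝ → ℝ, L = fun z => log (rho (H z.2.1) z.2.2) := ⟨_, rfl⟩
  have h1 : ContDiff ℝ ((5 : ℕ) : ℕ∞) fun z : ℝ × ℝ × ℝ => rho (H z.2.1) z.2.2 := (rho_joint92 h).comp contDiff_snd
  have h2 : ∀ θ, ContDiffAt ℝ ((3 + 1 : ℕ) : ℕ∞) L (0, s₀, θ) := by
    intro θ
    rw [hL]
    exact (h1.of_le (by norm_cast)).contDiffAt.log (hr θ).ne'
  have h3 : ∀ θ, ContDiffAt ℝ ((3 : ℕ) : ℕ∞) (Ds L) (0, s₀, θ) := fun θ => Ds_at (h2 θ)
  have h4 : vel H s₀ = fun θ => Ds L (0, s₀, θ) := by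
    funext θ
    have h5 := Ds_hd (z := (0, s₀, θ)) ((h2 θ).differentiableAt (by norm_num))
    rw [hL] at h5 ⊢
    exact h5.deriv
  rw [h4, contDiff_iff_contDiffAt]
  intro θ
  have h6 : ContDiff ℝ 2 fun θ : ℝ => ((0, s₀, θ) : ℝ × ℝ × ℝ) := by fun_prop
  exact ContDiffAt.comp θ ((h3 θ).of_le (by norm_cast)) h6.contDiffAt

/-- the velocity in the coordinates of the lattice -/
theorem vel_Hf {H : ℝ → ℝ → ℝ} (h : ContDiff ℝ 7 fun q : ℝ × ℝ => H q.1 q.2) (hp : ∀ s, Function.Periodic (H s) (2 * π)) {f : Fr} (hf : fdet f ≠ 0)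
    {s₀ : ℝ} (hr : ∀ θ, 0 < rho (H s₀) θ) (θ : ℝ) : vel (fun s => Hf (H s) f) s₀ θ = vel H s₀ (th f θ) := by
  unfold vel
  have hs : ∀ s, ContDiff ℝ 2 (H s) := fun s => (h.of_le (by norm_num)).comp (contDiff_const.prodMk contDiff_id)
  have hq : 0 < qa f θ := qa_pos hf θ
  have hw : 0 < fdet f ^ 2 / (qa f θ * sqrt (qa f θ)) := by
    have := sqrt_pos.2 hq
    positivity
  have hc : Continuous fun s : ℝ => rho (H s) (th f θ) := (rho_cont h).comp (continuous_id.prodMk continuous_const)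
  have h1 : ∀ᶠ s in 𝓝 s₀, 0 < rho (H s) (th f θ) := hc.continuousAt.eventually_mem (isOpen_Ioi.mem_nhds (hr (th f θ)))
  have h2 : (fun s => log (rho (Hf (H s) f) θ)) =ᶠ[𝓝 s₀] fun s => log (rho (H s) (th f θ)) + log (fdet f ^ 2 / (qa f θ * sqrt (qa f θ))) := by
    filter_upwards [h1] with s hs1
    rw [rho_Hf (hs s) (hp s) hf, log_mul hs1.ne' hw.ne']
  rw [h2.deriv_eq, deriv_add_const]

theorem Mo_Hf {H : ℝ → ℝ → ℝ} (h : ContDiff ℝ 7 fun q : ℝ × ℝ => H q.1 q.2) (hp : ∀ s, Function.Periodic (H s) (2 * π)) {f : Fr} (hf : fdet f ≠ 0)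
    {s₀ : ℝ} (hr : ∀ θ, 0 < rho (H s₀) θ) (hv : Mo H s₀) : Mo (fun s => Hf (H s) f) s₀ := by
  obtain ⟨V, hV⟩ : ∃ V : ℝ → ℝ, V = vel H s₀ := ⟨_, rfl⟩
  have hV2 : ContDiff ℝ 2 V := by
    rw [hV]
    exact vel_sm92 h hr
  have hd : Differentiable ℝ V := hV2.differentiable (by norm_num)
  have hG1 : ContDiff ℝ 1 (deriv V) := by
    have h' : ContDiff ℝ (1 + 1) V := by
      have e : (1 + 1 : WithTop ℕ∞) = 2 := by norm_num
      rw [e]
      exact hV2
    exact (contDiff_succ_iff_deriv.1 h').2.2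
  have hd1 : Differentiable ℝ (deriv V) := hG1.differentiable (by norm_num)
  have e1 : vel (fun s => Hf (H s) f) s₀ = fun θ => V (th f θ) := by
    funext θ
    rw [hV]
    exact vel_Hf h hp hf hr θ
  have e2 : deriv (vel (fun s => Hf (H s) f) s₀) = fun θ => deriv V (th f θ) * (fdet f / qa f θ) := by
    rw [e1]
    funext θ
    exact (HasDerivAt.comp θ (hd (th f θ)).hasDerivAt (th_deriv hf θ)).deriv
  intro θ
  have hq : 0 < qa f θ := qa_pos hf θ
  have hne : fdet f / qa f θ ≠ 0 := div_ne_zero hf hq.ne'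
  have h3 : HasDerivAt (fun θ => fdet f / qa f θ) (-(fdet f * (2 * (a1 f θ * b1 f θ + a2 f θ * b2 f θ))) / qa f θ ^ 2) θ := by
    have h4 := (hasDerivAt_const θ (fdet f)).div (qa_deriv f θ) hq.ne'
    refine h4.congr_deriv ?_
    ring
  have e3 : deriv (deriv (vel (fun s => Hf (H s) f) s₀)) θ =
      deriv (deriv V) (th f θ) * (fdet f / qa f θ) * (fdet f / qa f θ) + deriv V (th f θ) * (-(fdet f * (2 * (a1 f θ * b1 f θ + a2 f θ * b2 f θ))) / qa f θ ^ 2) := by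
    rw [e2]
    exact ((HasDerivAt.comp θ (hd1 (th f θ)).hasDerivAt (th_deriv hf θ)).mul h3).deriv
  have hv' := hv (th f θ)
  rw [← hV] at hv'
  by_contra hcon
  push Not at hcon
  obtain ⟨h5, h6⟩ := hcon
  rw [e2] at h5
  simp only at h5
  have h7 : deriv V (th f θ) = 0 := by
    rcases mul_eq_zero.1 h5 with h8 | h8
    · exact h8
    · exact absurd h8 hne
  rw [e3, h7, zero_mul, add_zero] at h6
  have h8 : deriv (deriv V) (th f θ) = 0 := by
    rcases mul_eq_zero.1 h6 with h9 | h9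
    · rcases mul_eq_zero.1 h9 with h10 | h10
      · exact h10
      · exact absurd h10 hne
    · exact absurd h9 hne
  rcases hv' with h9 | h9
  · exact h9 h7
  · exact h9 h8

/-- almost every member of a curve of ovals, every lattice -/
theorem mainL {H : ℝ → ℝ → ℝ} (h : ContDiff ℝ 7 fun q : ℝ × ℝ => H q.1 q.2) (hp : ∀ s, Function.Periodic (H s) (2 * π)) {ab : Fr} (hab : fdet ab ≠ 0) :
    ∀ᵐ s : ℝ, (∀ θ, 0 < rho (H s) θ) → Mo H s → ∀ ε : ℝ, 0 < ε → ∃ C : ℝ, ∀ R : ℝ, 1 ≤ R → ∀ c : ℝ × ℝ,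
      |lcnt ab (H s) c R - area (H s) * R ^ 2 / abs (fdet ab)| ≤ C * R ^ (5 / 9 + ε) := by
  have hf : fdet (dl ab) ≠ 0 := by
    rw [fdet_dl hab]
    positivity
  have hs : ∀ s, ContDiff ℝ 2 (H s) := fun s => (h.of_le (by norm_num)).comp (contDiff_const.prodMk contDiff_id)
  have key := mainG (H := fun s => Hf (H s) (dl ab)) (Hf_joint h hp hf) (fun s t => by
    unfold Hf
    rw [cos_add_two_pi, sin_add_two_pi])
  filter_upwards [key] with s hs1 hr hv ε hε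
  have hr' : ∀ θ, 0 < rho (Hf (H s) (dl ab)) θ := by
    intro θ
    rw [rho_Hf (hs s) (hp s) hf]
    have hq : 0 < qa (dl ab) θ := qa_pos hf θ
    have := sqrt_pos.2 hq
    exact mul_pos (hr _) (by positivity)
  obtain ⟨C, hC⟩ := hs1 hr' (Mo_Hf h hp hf hr hv) ε hε
  refine ⟨C, fun R hR c => ?_⟩
  have h5 := hC R hR ((dl ab).1.1 * c.1 + (dl ab).1.2 * c.2, (dl ab).2.1 * c.1 + (dl ab).2.2 * c.2)
  rw [lcnt_std, area_lin (hp s) hf, fdet_dl hab, ← lcnt_eq (hp s) hab c R, abs_div, abs_one] at h5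
  have e1 : 1 / |fdet ab| * area (H s) * R ^ 2 = area (H s) * R ^ 2 / |fdet ab| := by ring
  rwa [e1] at h5

/-- the same with two vectors -/
theorem mainGL {a b : ℝ × ℝ} (hab : a.1 * b.2 - a.2 * b.1 ≠ 0) {H : ℝ → ℝ → ℝ} (h : ContDiff ℝ 7 fun q : ℝ × ℝ => H q.1 q.2)
    (hp : ∀ s, Function.Periodic (H s) (2 * π)) :
    ∀ᵐ s : ℝ, (∀ θ, 0 < rho (H s) θ) → Mo H s → ∀ ε : ℝ, 0 < ε → ∃ C : ℝ, ∀ R : ℝ, 1 ≤ R → ∀ c : ℝ × ℝ,
      |lcnt (a, b) (H s) c R - (area (H s) * R ^ 2 / |a.1 * b.2 - a.2 * b.1|)| ≤ C * R ^ (5 / 9 + ε) :=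
  mainL h hp (ab := (a, b)) hab

end Pool.Agent.Helper92.GV
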