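import Pool.Agent.Helper92.GV.Core
import Pool.Agent.Helper60.GM.Defs

/-!
# Generic curves of ovals (MP_fb29e9_nt): the four rotated cones
-/

open MeasureTheory Real Set Filter Topology

set_option autoImplicit false

namespace Pool.Agent.Helper92.GV

open Pool.Agent.Helper22.AE
open Pool.Agent.Helper22.AC (cntc ga)
open Pool.Agent.Helper92.GC (dt tp Tq uu tt arc dd sqa m6)
open Pool.Agent.Helper92.DT (m12 IsMul12)
open Pool.Agent.Helper60.RT (FR cn)
open Pool.Agent.Helper60.GM (Fam mf RN)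
open Pool.Agent.Helper92.LA (JJ HL WL m12_cont_coef)
open Pool.Agent.Helper22.LP (fdet Hf fk fv nr hom nr_eq wr)

private theorem pw92 {ι : Type} (P : Finset ι) (f : ι → ℝ) (hf : ∀ i ∈ P, 0 ≤ f i) :
    (∑ i ∈ P, f i) ^ 12 ≤ (P.card : ℝ) ^ 11 * ∑ i ∈ P, f i ^ 12 := by
  rcases P.eq_empty_or_nonempty with hP0 | hP0
  · rw [hP0]
    simp
  · have h := pow_sum_div_card_le_sum_pow (s := P) (f := f) hf 11
    have hcd : (0 : ℝ) < (P.card : ℝ) ^ 11 := by
      have : (0 : ℝ) < (P.card : ℝ) := by exact_mod_cast hP0.card_pos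
      positivity
    rw [div_le_iff₀ hcd, mul_comm] at h
    exact h

private theorem intb92 {f : ℝ × ℝ → ℝ} (hf : Continuous f) : Integrable f (volume.restrict Tq) := by
  have h1 : IsCompact Tq := isCompact_Icc.prod isCompact_Icc
  exact hf.continuousOn.integrableOn_compact h1

/-- splitting of the twelfth moment into the fibres of a map -/
private theorem m12_fib92 {ι : Type} [DecidableEq ι] (S : Finset (ℤ × ℤ)) (g : ℤ × ℤ → ι) (P : Finset ι) (hP : ∀ k ∈ S, g k ∈ P) (a : ℤ × ℤ → ℂ) :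
    m12 S a ≤ (P.card : ℝ) ^ 11 * ∑ i ∈ P, m12 (S.filter (fun k => g k = i)) a := by
  have hc : ∀ S : Finset (ℤ × ℤ), Continuous fun c => ‖tp S a c‖ ^ 12 := fun S => (Pool.Agent.Helper92.GC.tp_cont S a).norm.pow 12
  have h1 : ∀ c, ‖tp S a c‖ ^ 12 ≤ (P.card : ℝ) ^ 11 * ∑ i ∈ P, ‖tp (S.filter (fun k => g k = i)) a c‖ ^ 12 := by
    intro c
    have h2 : tp S a c = ∑ i ∈ P, tp (S.filter (fun k => g k = i)) a c := by
      unfold tp
      exact (Finset.sum_fiberwise_of_maps_to hP _).symm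
    have h3 : ‖tp S a c‖ ≤ ∑ i ∈ P, ‖tp (S.filter (fun k => g k = i)) a c‖ := by
      rw [h2]
      exact norm_sum_le _ _
    exact (pow_le_pow_left₀ (norm_nonneg _) h3 12).trans (pw92 P (fun i => ‖tp (S.filter (fun k => g k = i)) a c‖) (fun i _ => norm_nonneg _))
  unfold m12
  rw [← integral_finsetSum _ fun i _ => intb92 (hc _), ← integral_const_mul]
  exact integral_mono (intb92 (hc _)) (intb92 (continuous_const.mul (continuous_finsetSum _ fun i _ => hc _))) h1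

/-- the rotation of the frequencies -/
def rt92 (k : ℤ × ℤ) : ℤ × ℤ := (-k.2, k.1)

theorem rt_inj92 : Function.Injective rt92 := by
  intro k l h
  unfold rt92 at h
  have h1 := congrArg Prod.fst h
  have h2 := congrArg Prod.snd h
  simp only at h1 h2
  exact Prod.ext h2 (neg_injective h1)

open Classical in
/-- the number of the quarter -/
private noncomputable def qt92 (k : ℤ × ℤ) : ℕ :=
  if -k.1 < k.2 ∧ k.2 ≤ k.1 then 0 else if k.1 < k.2 ∧ -k.1 ≤ k.2 then 1 else if k.1 ≤ k.2 ∧ k.2 < -k.1 then 2 else 3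

private theorem mem_cn92 (N : ℕ) (k : ℤ × ℤ) : k ∈ cn N ↔ k ∈ sqa N ∧ (-k.1 < k.2 ∧ k.2 ≤ k.1) := by
  unfold cn
  rw [Finset.mem_filter]

private theorem mem_sqa92 (N : ℕ) (k : ℤ × ℤ) : k ∈ sqa N ↔ ((N : ℤ) ≤ |k.1| ∨ (N : ℤ) ≤ |k.2|) ∧ |k.1| < 2 * N ∧ |k.2| < 2 * N := by
  unfold sqa
  rw [Finset.mem_filter]
  refine ⟨fun h => h.2, fun h => ⟨?_, h⟩⟩
  unfold box
  rw [Finset.mem_product, Finset.mem_Icc, Finset.mem_Icc]
  have h1 := abs_lt.1 h.2.1
  have h2 := abs_lt.1 h.2.2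
  push_cast
  omega

private theorem sqa_rt92 (N : ℕ) (k : ℤ × ℤ) : rt92 k ∈ sqa N ↔ k ∈ sqa N := by
  rw [mem_sqa92, mem_sqa92]
  unfold rt92
  simp only [abs_neg]
  tauto

private theorem q0_92 (N : ℕ) : (sqa N).filter (fun k => qt92 k = 0) = cn N := by
  ext k
  rw [Finset.mem_filter, mem_cn92]
  unfold qt92
  split_ifs <;> simp_all

private theorem q1_92 (N : ℕ) : (sqa N).filter (fun k => qt92 k = 1) = (cn N).image rt92 := by
  ext k
  rw [Finset.mem_filter, Finset.mem_image]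
  constructor
  · rintro ⟨h1, h2⟩
    refine ⟨(k.2, -k.1), ?_, ?_⟩
    · rw [mem_cn92]
      refine ⟨?_, ?_⟩
      · rw [← sqa_rt92]
        unfold rt92
        simpa using h1
      · unfold qt92 at h2
        simp only
        split_ifs at h2 with h3 h4 h5 <;> first | omega | (exact absurd h2 (by norm_num))
    · unfold rt92
      simp
  · rintro ⟨l, hl, rfl⟩
    rw [mem_cn92] at hl
    refine ⟨(sqa_rt92 N l).2 hl.1, ?_⟩
    have h2 := hl.2
    unfold qt92 rt92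
    simp only
    split_ifs with h3 h4 h5 <;> omega

private theorem q2_92 (N : ℕ) : (sqa N).filter (fun k => qt92 k = 2) = ((cn N).image rt92).image rt92 := by
  ext k
  rw [Finset.mem_filter, Finset.mem_image]
  constructor
  · rintro ⟨h1, h2⟩
    refine ⟨(k.2, -k.1), ?_, ?_⟩
    · rw [Finset.mem_image]
      refine ⟨(-k.1, -k.2), ?_, ?_⟩
      · rw [mem_cn92]
        refine ⟨?_, ?_⟩
        · rw [← sqa_rt92, ← sqa_rt92]
          unfold rt92
          simpa using h1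
        · unfold qt92 at h2
          simp only
          split_ifs at h2 with h3 h4 h5 <;> first | omega | (exact absurd h2 (by norm_num))
      · unfold rt92
        simp
    · unfold rt92
      simp
  · rintro ⟨l, hl, rfl⟩
    rw [Finset.mem_image] at hl
    obtain ⟨m, hm, rfl⟩ := hl
    rw [mem_cn92] at hm
    refine ⟨(sqa_rt92 N _).2 ((sqa_rt92 N m).2 hm.1), ?_⟩
    have h2 := hm.2
    unfold qt92 rt92
    simp only
    split_ifs with h3 h4 h5 <;> omega

private theorem q3_92 {N : ℕ} (hN : 1 ≤ N) : (sqa N).filter (fun k => qt92 k = 3) = (((cn N).image rt92).image rt92).image rt92 := by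
  ext k
  rw [Finset.mem_filter, Finset.mem_image]
  constructor
  · rintro ⟨h1, h2⟩
    have h0 := (mem_sqa92 N k).1 h1
    refine ⟨(k.2, -k.1), ?_, ?_⟩
    · rw [Finset.mem_image]
      refine ⟨(-k.1, -k.2), ?_, ?_⟩
      · rw [Finset.mem_image]
        refine ⟨(-k.2, k.1), ?_, ?_⟩
        · rw [mem_cn92]
          refine ⟨?_, ?_⟩
          · rw [← sqa_rt92, ← sqa_rt92, ← sqa_rt92]
            unfold rt92
            simpa using h1
          · have h5 : k.1 ≠ 0 ∨ k.2 ≠ 0 := by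
              by_contra hc
              rw [not_or, not_not, not_not] at hc
              rw [hc.1, hc.2] at h0
              simp only [abs_zero] at h0
              have hN' : (1 : ℤ) ≤ N := by exact_mod_cast hN
              omega
            unfold qt92 at h2
            simp only
            split_ifs at h2 with h3 h4 h6 <;> first | omega | (exact absurd h2 (by norm_num))
        · unfold rt92
          simp
      · unfold rt92
        simp
    · unfold rt92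
      simp
  · rintro ⟨l, hl, rfl⟩
    rw [Finset.mem_image] at hl
    obtain ⟨m, hm, rfl⟩ := hl
    rw [Finset.mem_image] at hm
    obtain ⟨p, hp, rfl⟩ := hm
    rw [mem_cn92] at hp
    refine ⟨(sqa_rt92 N _).2 ((sqa_rt92 N _).2 ((sqa_rt92 N p).2 hp.1)), ?_⟩
    have h2 := hp.2
    unfold qt92 rt92
    simp only
    split_ifs with h3 h4 h5 <;> omega


/-- the moment of the square annulus by the four rotations of the cone -/
theorem m12_sqa {N : ℕ} (hN : 1 ≤ N) (a : ℤ × ℤ → ℂ) :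
    m12 (sqa N) a ≤ 4 ^ 11 * (m12 (cn N) a + m12 (cn N) (fun k => a (rt92 k)) + m12 (cn N) (fun k => a (rt92 (rt92 k))) + m12 (cn N) (fun k => a (rt92 (rt92 (rt92 k))))) := by
  have hP : ∀ k ∈ sqa N, qt92 k ∈ Finset.range 4 := by
    intro k _
    rw [Finset.mem_range]
    unfold qt92
    split_ifs <;> norm_num
  have hadd : ∀ k l, rt92 (k + l) = rt92 k + rt92 l := by
    intro k l
    unfold rt92
    exact Prod.ext (by simp only [Prod.fst_add, Prod.snd_add]; ring) (by simp only [Prod.fst_add, Prod.snd_add])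
  have h := m12_fib92 (sqa N) qt92 (Finset.range 4) hP a
  rw [Finset.card_range, Finset.sum_range_succ, Finset.sum_range_succ, Finset.sum_range_succ, Finset.sum_range_succ, Finset.sum_range_zero, zero_add,
    q0_92, q1_92, q2_92, q3_92 hN] at h
  have i1 : ∀ (S : Finset (ℤ × ℤ)) (b : ℤ × ℤ → ℂ), m12 (S.image rt92) b = m12 S (fun k => b (rt92 k)) := fun S b =>
    Pool.Agent.Helper60.LT.m12_image rt92 hadd rt_inj92 S b
  rw [i1, i1, i1, i1, i1, i1] at h
  push_cast at h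
  exact h

/-- the vector of slope `t` turned by `φ` -/
noncomputable def vr (φ t : ℝ) : ℝ × ℝ := (cos φ - t * sin φ, sin φ + t * cos φ)

private theorem cn_pos92 {N : ℕ} {k : ℤ × ℤ} (hk : k ∈ cn N) : 0 < k.1 := by
  rw [mem_cn92] at hk
  omega

/-- the phase of a frequency of the cone turned by `φ` -/
private theorem ph92 (γ : ℝ → ℝ) {k : ℤ × ℤ} (hk : 0 < k.1) (φ : ℝ) :
    hom γ ((k.1 : ℝ) * cos φ - k.2 * sin φ, (k.1 : ℝ) * sin φ + k.2 * cos φ) = (k.1 : ℝ) * hom γ (vr φ (tt 0 k)) := by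
  have h1 : (0 : ℝ) < k.1 := by exact_mod_cast hk
  rw [← Pool.Agent.Helper92.LA.hom_smul γ h1]
  congr 1
  unfold vr tt
  simp only [uu]
  norm_num
  constructor <;> field_simp

private theorem fk_f0_92 (k : ℤ × ℤ) : fk f0 k = ((k.1 : ℝ), (k.2 : ℝ)) := by
  unfold fk Pool.Agent.Helper22.LP.fv f0
  simp

private theorem r1_92 (k : ℤ × ℤ) : (((rt92 k).1 : ℝ), ((rt92 k).2 : ℝ)) = ((k.1 : ℝ) * cos (π / 2) - k.2 * sin (π / 2), (k.1 : ℝ) * sin (π / 2) + k.2 * cos (π / 2)) := by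
  rw [cos_pi_div_two, sin_pi_div_two]
  unfold rt92
  simp

private theorem r2_92 (k : ℤ × ℤ) : (((rt92 (rt92 k)).1 : ℝ), ((rt92 (rt92 k)).2 : ℝ)) = ((k.1 : ℝ) * cos π - k.2 * sin π, (k.1 : ℝ) * sin π + k.2 * cos π) := by
  rw [cos_pi, sin_pi]
  unfold rt92
  simp

private theorem r3_92 (k : ℤ × ℤ) : (((rt92 (rt92 (rt92 k))).1 : ℝ), ((rt92 (rt92 (rt92 k))).2 : ℝ)) =
    ((k.1 : ℝ) * cos (3 * (π / 2)) - k.2 * sin (3 * (π / 2)), (k.1 : ℝ) * sin (3 * (π / 2)) + k.2 * cos (3 * (π / 2))) := by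
  have h1 : 3 * (π / 2) = π / 2 + π := by ring
  rw [h1, cos_add_pi, sin_add_pi, cos_pi_div_two, sin_pi_div_two]
  unfold rt92
  simp

/-- the moment of one member: the four cones -/
private theorem m12_mem92 (γ : ℝ → ℝ) {N : ℕ} (hN : 1 ≤ N) (r : ℝ) : m12 (sqa N) (fun k => ee (r * hom γ (fk f0 k))) ≤
    4 ^ 11 * ∑ j ∈ Finset.range 4, m12 (cn N) (fun k => ee (r * ((k.1 : ℝ) * hom γ (vr ((j : ℝ) * (π / 2)) (tt 0 k))))) := by
  have h := m12_sqa hN (fun k => ee (r * hom γ (fk f0 k)))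
  refine h.trans (le_of_eq ?_)
  rw [Finset.sum_range_succ, Finset.sum_range_succ, Finset.sum_range_succ, Finset.sum_range_succ, Finset.sum_range_zero, zero_add]
  have key : ∀ (g : ℤ × ℤ → ℤ × ℤ) (φ : ℝ), (∀ k, (((g k).1 : ℝ), ((g k).2 : ℝ)) = ((k.1 : ℝ) * cos φ - k.2 * sin φ, (k.1 : ℝ) * sin φ + k.2 * cos φ)) →
      m12 (cn N) (fun k => ee (r * hom γ (fk f0 (g k)))) = m12 (cn N) (fun k => ee (r * ((k.1 : ℝ) * hom γ (vr φ (tt 0 k))))) := by
    intro g φ hg
    refine Pool.Agent.Helper92.DT.m12_congr fun k hk => ?_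
    rw [fk_f0_92, hg, ph92 γ (cn_pos92 hk)]
  rw [key (fun k => k) (((0 : ℕ) : ℝ) * (π / 2)) (fun k => by simp), key rt92 (((1 : ℕ) : ℝ) * (π / 2)) (fun k => by rw [r1_92]; norm_num),
    key (fun k => rt92 (rt92 k)) (((2 : ℕ) : ℝ) * (π / 2)) (fun k => by rw [r2_92]; congr 3 <;> (push_cast; ring_nf)),
    key (fun k => rt92 (rt92 (rt92 k))) (((3 : ℕ) : ℝ) * (π / 2)) (fun k => by rw [r3_92]; norm_num)]

/-- substitution and four pieces, abstract form -/
private theorem abs92 {s₀ δ : ℝ} (hδ : 0 < δ) (G : ℝ → ENNReal) (M : ℕ → ℝ → ℝ → ENNReal) (hmeas : ∀ j < 4, Measurable fun z : ℝ × ℝ => M j z.1 z.2)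
    (K : ENNReal) (A : Set ℝ) (h1 : ∀ s, G (s₀ + δ * (s - 1 / 2)) ≤ K * ∑ j ∈ Finset.range 4, ∫⁻ r in A, M j s r) {D : ENNReal}
    (h8 : ∀ j < 4, ∫⁻ s in Icc (0 : ℝ) 1, ∫⁻ r in A, M j s r ≤ D) :
    ∫⁻ s in Icc (s₀ - δ / 2) (s₀ + δ / 2), G s ≤ ENNReal.ofReal δ * (K * (4 * D)) := by
  have hms : ∀ j < 4, Measurable fun s : ℝ => ∫⁻ r in A, M j s r := fun j hj => (hmeas j hj).lintegral_prod_right'
  obtain ⟨φ, hφ⟩ : ∃ φ : ℝ → ℝ, φ = fun s => s₀ + δ * (s - 1 / 2) := ⟨_, rfl⟩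
  have himg : Icc (s₀ - δ / 2) (s₀ + δ / 2) = φ '' Icc (0 : ℝ) 1 := by
    rw [hφ]
    ext s
    constructor
    · intro hs
      refine ⟨(s - s₀) / δ + 1 / 2, ⟨?_, ?_⟩, ?_⟩
      · have : -(1 / 2) ≤ (s - s₀) / δ := by
          rw [le_div_iff₀ hδ]
          linarith [hs.1]
        linarith
      · have : (s - s₀) / δ ≤ 1 / 2 := by
          rw [div_le_iff₀ hδ]
          linarith [hs.2]
        linarith
      · dsimp only
        field_simp
        ring
    · rintro ⟨u, hu, rfl⟩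
      have h2 := mul_le_mul_of_nonneg_left hu.1 hδ.le
      have h3 := mul_le_mul_of_nonneg_left hu.2 hδ.le
      constructor <;> dsimp only <;> linarith
  rw [himg, lintegral_image_eq_lintegral_abs_deriv_mul measurableSet_Icc (f' := fun _ => δ)
    (fun s _ => by
      rw [hφ]
      have h4 := (((hasDerivAt_id s).sub_const (1 / 2)).const_mul δ).const_add s₀
      simpa using h4.hasDerivWithinAt)
    (fun s _ s' _ hss => by
      rw [hφ] at hss
      dsimp only at hss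
      have h5 : δ * (s - s') = 0 := by linarith
      rcases mul_eq_zero.1 h5 with h6 | h6
      · exact absurd h6 hδ.ne'
      · linarith)]
  rw [abs_of_pos hδ]
  have h7 : ∫⁻ s in Icc (0 : ℝ) 1, ENNReal.ofReal δ * G (φ s) ≤
      ∫⁻ s in Icc (0 : ℝ) 1, ENNReal.ofReal δ * (K * ∑ j ∈ Finset.range 4, ∫⁻ r in A, M j s r) := by
    refine lintegral_mono fun s => ?_
    dsimp only
    rw [hφ]
    exact mul_le_mul_right (h1 s) _
  refine h7.trans ?_
  have hms' : Measurable fun s : ℝ => ∑ j ∈ Finset.range 4, ∫⁻ r in A, M j s r :=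
    Finset.measurable_fun_sum _ fun j hj => hms j (Finset.mem_range.1 hj)
  rw [lintegral_const_mul _ (hms'.const_mul _), lintegral_const_mul _ hms', lintegral_finsetSum _ fun j hj => hms j (Finset.mem_range.1 hj)]
  have h10 := Finset.sum_le_sum fun j hj => h8 j (Finset.mem_range.1 hj)
  rw [Finset.sum_const, Finset.card_range, nsmul_eq_mul] at h10
  exact mul_le_mul_right (mul_le_mul_right h10 _) _

/-- one member, abstract form -/
private theorem absm92 {A B : Set ℝ} (hAB : A ⊆ B) (hA : IsCompact A) {g : ℝ → ℝ} (hg : Continuous g) (hg0 : ∀ r, 0 ≤ g r) (M : ℕ → ℝ → ℝ) (hM : ∀ j < 4, Continuous (M j))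
    (hM0 : ∀ j r, 0 ≤ M j r) {K : ℝ} (hK : 0 ≤ K) (h : ∀ r, g r ≤ K * ∑ j ∈ Finset.range 4, M j r) :
    ENNReal.ofReal (∫ r in A, g r) ≤ ENNReal.ofReal K * ∑ j ∈ Finset.range 4, ∫⁻ r in B, ENNReal.ofReal (M j r) := by
  rw [ofReal_integral_eq_lintegral_ofReal (hg.continuousOn.integrableOn_compact hA) (Eventually.of_forall hg0)]
  refine (lintegral_mono_set hAB).trans ?_
  have hmr : ∀ j < 4, Measurable fun r : ℝ => ENNReal.ofReal (M j r) := fun j hj => ENNReal.measurable_ofReal.comp (hM j hj).measurable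
  rw [← lintegral_finsetSum _ fun j hj => hmr j (Finset.mem_range.1 hj), ← lintegral_const_mul _ (Finset.measurable_fun_sum _ fun j hj => hmr j (Finset.mem_range.1 hj))]
  refine lintegral_mono fun r => ?_
  dsimp only
  rw [← ENNReal.ofReal_sum_of_nonneg fun j _ => hM0 j r, ← ENNReal.ofReal_mul hK]
  exact ENNReal.ofReal_le_ofReal (h r)

private theorem mf_cont92 {F : Fam} (hc : Continuous fun z : ℝ × ℝ => F.q z.1 z.2) (S : Finset (ℤ × ℤ)) : Continuous fun z : ℝ × ℝ => mf F S z.2 z.1 := by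
  unfold mf
  refine m12_cont_coef S (fun (z : ℝ × ℝ) k => ee (z.2 * ((k.1 : ℝ) * F.q z.1 (tt 0 k)))) fun k _ => ee_cont.comp (continuous_snd.mul (continuous_const.mul ?_))
  have h1 : Continuous fun z : ℝ × ℝ => ((z.1, tt 0 k) : ℝ × ℝ) := continuous_fst.prodMk continuous_const
  exact hc.comp h1

private theorem mf_cont_r92 {F : Fam} (hc : Continuous fun z : ℝ × ℝ => F.q z.1 z.2) (S : Finset (ℤ × ℤ)) (s : ℝ) : Continuous fun r : ℝ => mf F S r s := by
  obtain ⟨G, hG⟩ : ∃ G : ℝ × ℝ → ℝ, ∀ z, G z = mf F S z.2 z.1 := ⟨_, fun _ => rfl⟩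
  have h1 : Continuous G := by
    have e1 : G = fun z : ℝ × ℝ => mf F S z.2 z.1 := funext hG
    rw [e1]
    exact mf_cont92 hc S
  have h2 : Continuous fun r : ℝ => ((s, r) : ℝ × ℝ) := continuous_const.prodMk continuous_id
  have h3 := h1.comp h2
  have e2 : (fun r : ℝ => mf F S r s) = G ∘ fun r : ℝ => ((s, r) : ℝ × ℝ) := by
    funext r
    exact (hG (s, r)).symm
  rw [e2]
  exact h3

/-- the moment of one member of the curve -/
private theorem mem92 {γ : ℝ → ℝ} {s : ℝ} (F : ℕ → Fam) (hF : ∀ j < 4, ∀ t : ℝ, (F j).q s t = hom γ (vr ((j : ℝ) * (π / 2)) t))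
    (hc : ∀ j < 4, Continuous fun z : ℝ × ℝ => (F j).q z.1 z.2) {X : ℝ} {N : ℕ} (hX : 1 ≤ X) (hN : 1 ≤ N) :
    ENNReal.ofReal (JJ f0 (hom γ) X N) ≤ ENNReal.ofReal (4 ^ 11) * ∑ j ∈ Finset.range 4, ∫⁻ r in Icc (X / 8) (8 * X), ENNReal.ofReal (mf (F j) (cn N) r s) := by
  have hcr : Continuous fun r : ℝ => m12 (sqa N) (fun k => ee (r * hom γ (fk f0 k))) :=
    m12_cont_coef (sqa N) (fun (r : ℝ) k => ee (r * hom γ (fk f0 k))) fun k _ => ee_cont.comp (continuous_id.mul continuous_const)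
  unfold JJ
  refine absm92 (Icc_subset_Icc_left (by linarith)) isCompact_Icc hcr (fun r => Pool.Agent.Helper92.DT.m12_nonneg _ _) (fun j r => mf (F j) (cn N) r s)
    (fun j hj => mf_cont_r92 (hc j hj) (cn N) s) (fun j r => Pool.Agent.Helper92.DT.m12_nonneg _ _) (by positivity) fun r => ?_
  refine (m12_mem92 γ hN r).trans (le_of_eq ?_)
  congr 1
  refine Finset.sum_congr rfl fun j hj => ?_
  unfold mf
  congr 1
  funext k
  rw [hF j (Finset.mem_range.1 hj)]

/-- the integral of the moments over the curve, by the four cones -/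
theorem curve_int {H : ℝ → ℝ → ℝ} {α s₀ δ : ℝ} (hδ : 0 < δ) (F : ℕ → Fam)
    (hF : ∀ j < 4, ∀ s t : ℝ, (F j).q s t = hom (ga (H (s₀ + δ * (s - 1 / 2))) α) (vr ((j : ℝ) * (π / 2)) t))
    (hc : ∀ j < 4, Continuous fun z : ℝ × ℝ => (F j).q z.1 z.2) {X : ℝ} {N : ℕ} (hX : 1 ≤ X) (hN : 1 ≤ N) {D : ℝ} (hD : 0 ≤ D)
    (h : ∀ j < 4, RN (F j) (1 / 2) (1 / 2) 8 X (cn N) ≤ ENNReal.ofReal D) :
    ∫⁻ s in Icc (s₀ - δ / 2) (s₀ + δ / 2), ENNReal.ofReal (JJ f0 (hom (ga (H s) α)) X N) ≤ ENNReal.ofReal (4 ^ 12 * δ * D) := by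
  obtain ⟨G, hG⟩ : ∃ G : ℝ → ENNReal, ∀ s, G s = ENNReal.ofReal (JJ f0 (hom (ga (H s) α)) X N) := ⟨_, fun _ => rfl⟩
  obtain ⟨M, hM⟩ : ∃ M : ℕ → ℝ → ℝ → ENNReal, ∀ j s r, M j s r = ENNReal.ofReal (mf (F j) (cn N) r s) := ⟨_, fun _ _ _ => rfl⟩
  obtain ⟨K, hK⟩ : ∃ K : ℝ, K = 4 ^ 11 := ⟨_, rfl⟩
  have hmeas : ∀ j < 4, Measurable fun z : ℝ × ℝ => M j z.1 z.2 := by
    intro j hj
    have e1 : (fun z : ℝ × ℝ => M j z.1 z.2) = fun z : ℝ × ℝ => ENNReal.ofReal (mf (F j) (cn N) z.2 z.1) := by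
      funext z
      rw [hM]
    rw [e1]
    exact ENNReal.measurable_ofReal.comp (mf_cont92 (hc j hj) (cn N)).measurable
  have h1 : ∀ s, G (s₀ + δ * (s - 1 / 2)) ≤ ENNReal.ofReal K * ∑ j ∈ Finset.range 4, ∫⁻ r in Icc (X / 8) (8 * X), M j s r := by
    intro s
    rw [hG, hK]
    simp only [hM]
    exact mem92 F (fun j hj t => hF j hj s t) hc hX hN
  have h8 : ∀ j < 4, ∫⁻ s in Icc (0 : ℝ) 1, ∫⁻ r in Icc (X / 8) (8 * X), M j s r ≤ ENNReal.ofReal D := by
    intro j hj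
    simp only [hM]
    have h9 := h j hj
    unfold RN at h9
    have e1 : (1 / 2 : ℝ) - 1 / 2 = 0 := by norm_num
    have e2 : (1 / 2 : ℝ) + 1 / 2 = 1 := by norm_num
    rw [e1, e2] at h9
    refine le_trans ?_ h9
    have e3 : (1 : ENNReal) ≤ ENNReal.ofReal (1 / 2 : ℝ)⁻¹ := by
      rw [ENNReal.one_le_ofReal]
      norm_num
    calc ∫⁻ s in Icc (0 : ℝ) 1, ∫⁻ r in Icc (X / 8) (8 * X), ENNReal.ofReal (mf (F j) (cn N) r s)
        = 1 * ∫⁻ s in Icc (0 : ℝ) 1, ∫⁻ r in Icc (X / 8) (8 * X), ENNReal.ofReal (mf (F j) (cn N) r s) := (one_mul _).symm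
      _ ≤ _ := mul_le_mul_left e3 _
  have h2 := abs92 hδ G M hmeas (ENNReal.ofReal K) (Icc (X / 8) (8 * X)) h1 h8
  simp only [hG] at h2
  refine h2.trans (le_of_eq ?_)
  rw [show (4 : ENNReal) = ENNReal.ofReal 4 by norm_num, ← ENNReal.ofReal_mul (by norm_num), ← ENNReal.ofReal_mul (by rw [hK]; norm_num), ← ENNReal.ofReal_mul hδ.le]
  congr 1
  rw [hK]
  ring

end Pool.Agent.Helper92.GV
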