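import Pool.Agent.Helper60.RT.Defs
import Pool.Agent.Helper92.LA.D3
import Pool.Agent.Helper75.TW.Main

/-!
# Generic curves of ovals (MP_fb29e9_nt): from the moments over a curve of support functions to the lattice points

`H s θ`: a family of support functions, `s` in a compact interval. If the twelfth moments of the functions `ga (H s) α`, integrated over `s`, are bounded uniformly in small `α`,
then for almost every `s` the discrepancy of the oval is `O(R^(5/9+ε))` for all centres.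
-/

open MeasureTheory Real Set Filter Topology

set_option autoImplicit false

namespace Pool.Agent.Helper92.GV

open Pool.Agent.Helper22.AE
open Pool.Agent.Helper22.AC (cntc ga)
open Pool.Agent.Helper92.GC (dt tp Tq uu tt arc dd sqa m6)
open Pool.Agent.Helper92.DT (m12 IsMul12)
open Pool.Agent.Helper60.RT (FR)
open Pool.Agent.Helper92.LA (JJ HL WL dl fdet_dl lcnt lcnt_eq lcnt_swap m12_cont_coef)
open Pool.Agent.Helper22.LP (fdet Hf dom_lin area_lin fk fv nr hom nr_eq wr)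
open Pool.Agent.Helper75.TW (TB TB_pos J20 isSupp_one frame_core ldisc ldisc_eq)

/-- the standard frame -/
noncomputable def f0 : (ℝ × ℝ) × (ℝ × ℝ) := ((1, 0), (0, 1))

/-- the moment of the member `s`, averaged over `α` -/
noncomputable def Wm (H : ℝ → ℝ → ℝ) (α₁ : ℝ) (p n : ℕ) (s : ℝ) : ℝ :=
  ∫ α in Icc (-α₁) α₁, k0 (1 / sqrt ((2 : ℝ) ^ p * ((2 ^ n : ℕ) : ℝ))) α * JJ f0 (hom (ga (H s) α)) ((2 : ℝ) ^ p) (2 ^ n)

private theorem FR_pos92 {X N : ℝ} (hX : 0 < X) (hN : 0 < N) : 0 < FR X N := by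
  unfold FR
  positivity

private theorem JJ_nonneg92 (f : (ℝ × ℝ) × (ℝ × ℝ)) (h : ℝ × ℝ → ℝ) (X : ℝ) (N : ℕ) : 0 ≤ JJ f h X N := by
  unfold JJ m12
  exact integral_nonneg fun _ => integral_nonneg fun _ => by positivity

private theorem JJ_joint92 {H : ℝ → ℝ → ℝ} (hc : ∀ v : ℝ × ℝ, Continuous fun q : ℝ × ℝ => hom (ga (H q.1) q.2) v) (X : ℝ) (N : ℕ) :
    Continuous fun q : ℝ × ℝ => JJ f0 (hom (ga (H q.1) q.2)) X N := by
  unfold JJ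
  refine continuous_parametric_integral_of_continuous (f := fun (q : ℝ × ℝ) (r : ℝ) => m12 (sqa N) (fun k => ee (r * hom (ga (H q.1) q.2) (fk f0 k)))) ?_ isCompact_Icc
  have h1 : Continuous fun z : (ℝ × ℝ) × ℝ => m12 (sqa N) (fun k => ee (z.2 * hom (ga (H z.1.1) z.1.2) (fk f0 k))) := by
    refine m12_cont_coef (sqa N) (fun (z : (ℝ × ℝ) × ℝ) k => ee (z.2 * hom (ga (H z.1.1) z.1.2) (fk f0 k))) fun k _ => ?_
    refine ee_cont.comp (continuous_snd.mul ?_)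
    exact (hc (fk f0 k)).comp continuous_fst
  exact h1

private theorem JJ_a92 {H : ℝ → ℝ → ℝ} (hc : ∀ v : ℝ × ℝ, Continuous fun q : ℝ × ℝ => hom (ga (H q.1) q.2) v) (s X : ℝ) (N : ℕ) :
    Continuous fun α : ℝ => JJ f0 (hom (ga (H s) α)) X N := by
  have h1 : Continuous fun α : ℝ => ((s, α) : ℝ × ℝ) := continuous_const.prodMk continuous_id
  obtain ⟨G, hG⟩ : ∃ G : ℝ × ℝ → ℝ, ∀ q, G q = JJ f0 (hom (ga (H q.1) q.2)) X N := ⟨_, fun _ => rfl⟩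
  have h2 : Continuous G := by
    have e1 : G = fun q : ℝ × ℝ => JJ f0 (hom (ga (H q.1) q.2)) X N := funext hG
    rw [e1]
    exact JJ_joint92 hc X N
  have h3 : Continuous fun α : ℝ => G (s, α) := h2.comp h1
  have e2 : (fun α : ℝ => JJ f0 (hom (ga (H s) α)) X N) = fun α : ℝ => G (s, α) := by
    funext α
    rw [hG]
  rw [e2]
  exact h3

private theorem JJ_s92 {H : ℝ → ℝ → ℝ} (hc : ∀ v : ℝ × ℝ, Continuous fun q : ℝ × ℝ => hom (ga (H q.1) q.2) v) (α X : ℝ) (N : ℕ) :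
    Continuous fun s : ℝ => JJ f0 (hom (ga (H s) α)) X N := by
  have h1 : Continuous fun s : ℝ => ((s, α) : ℝ × ℝ) := continuous_id.prodMk continuous_const
  obtain ⟨G, hG⟩ : ∃ G : ℝ × ℝ → ℝ, ∀ q, G q = JJ f0 (hom (ga (H q.1) q.2)) X N := ⟨_, fun _ => rfl⟩
  have h2 : Continuous G := by
    have e1 : G = fun q : ℝ × ℝ => JJ f0 (hom (ga (H q.1) q.2)) X N := funext hG
    rw [e1]
    exact JJ_joint92 hc X N
  have h3 : Continuous fun s : ℝ => G (s, α) := h2.comp h1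
  have e2 : (fun s : ℝ => JJ f0 (hom (ga (H s) α)) X N) = fun s : ℝ => G (s, α) := by
    funext s
    rw [hG]
  rw [e2]
  exact h3

private theorem beta_pos92 (p n : ℕ) : 0 < 1 / sqrt ((2 : ℝ) ^ p * ((2 ^ n : ℕ) : ℝ)) := by
  have : (0 : ℝ) < ((2 ^ n : ℕ) : ℝ) := by exact_mod_cast Nat.one_le_two_pow
  positivity

private theorem Wm_cont92 {H : ℝ → ℝ → ℝ} (hc : ∀ v : ℝ × ℝ, Continuous fun q : ℝ × ℝ => hom (ga (H q.1) q.2) v) (α₁ : ℝ) (p n : ℕ) :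
    Continuous (Wm H α₁ p n) := by
  unfold Wm
  refine continuous_parametric_integral_of_continuous
    (f := fun (s : ℝ) (α : ℝ) => k0 (1 / sqrt ((2 : ℝ) ^ p * ((2 ^ n : ℕ) : ℝ))) α * JJ f0 (hom (ga (H s) α)) ((2 : ℝ) ^ p) (2 ^ n)) ?_ isCompact_Icc
  have hk := Pool.Agent.Helper22.OV.o3_k0_cont (beta_pos92 p n)
  exact (hk.comp continuous_snd).mul (JJ_joint92 hc _ _)

private theorem Wm_nonneg92 (H : ℝ → ℝ → ℝ) (α₁ : ℝ) (p n : ℕ) (s : ℝ) : 0 ≤ Wm H α₁ p n s := by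
  unfold Wm
  exact integral_nonneg fun α => mul_nonneg (Pool.Agent.Helper22.OV.o3_k0_nonneg (beta_pos92 p n) α) (JJ_nonneg92 _ _ _ _)

private theorem k0_mass92 {α₀ β : ℝ} (h0 : 0 < α₀) (h1 : α₀ < π / 2) (hβ : 0 < β) : ∫ α in Icc (-α₀) α₀, k0 β α ≤ 20 := by
  have hpi := Real.pi_pos
  have h2 := k0_int hβ
  rw [intervalIntegral.integral_of_le (by linarith)] at h2
  refine le_trans (setIntegral_mono_set ?_ (Eventually.of_forall (Pool.Agent.Helper22.OV.o3_k0_nonneg hβ)) (Eventually.of_forall ?_)) h2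
  · rw [← integrableOn_Icc_iff_integrableOn_Ioc]
    exact (Pool.Agent.Helper22.OV.o3_k0_cont hβ).continuousOn.integrableOn_compact isCompact_Icc
  · intro x hx
    exact ⟨by linarith [hx.1], by linarith [hx.2]⟩

/-- the integral of the averaged moment over the curve -/
private theorem Wm_int92 {H : ℝ → ℝ → ℝ} (hc : ∀ v : ℝ × ℝ, Continuous fun q : ℝ × ℝ => hom (ga (H q.1) q.2) v) {a b α₁ : ℝ} (h0 : 0 < α₁) (h1 : α₁ < π / 2)
    (p n : ℕ) {D : ℝ} (hD : 0 ≤ D) (hm : ∀ α ∈ Icc (-α₁) α₁, ∫⁻ s in Icc a b, ENNReal.ofReal (JJ f0 (hom (ga (H s) α)) ((2 : ℝ) ^ p) (2 ^ n)) ≤ ENNReal.ofReal D) :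
    ∫⁻ s in Icc a b, ENNReal.ofReal (Wm H α₁ p n s) ≤ ENNReal.ofReal (20 * D) := by
  have hk := Pool.Agent.Helper22.OV.o3_k0_cont (beta_pos92 p n)
  have hk0 := Pool.Agent.Helper22.OV.o3_k0_nonneg (beta_pos92 p n)
  obtain ⟨β, hβ⟩ : ∃ β : ℝ, β = 1 / sqrt ((2 : ℝ) ^ p * ((2 ^ n : ℕ) : ℝ)) := ⟨_, rfl⟩
  rw [← hβ] at hk hk0
  have e1 : ∀ s, ENNReal.ofReal (Wm H α₁ p n s) = ∫⁻ α in Icc (-α₁) α₁, ENNReal.ofReal (k0 β α * JJ f0 (hom (ga (H s) α)) ((2 : ℝ) ^ p) (2 ^ n)) := by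
    intro s
    unfold Wm
    rw [← hβ, ofReal_integral_eq_lintegral_ofReal]
    · exact (hk.mul (JJ_a92 hc s _ _)).continuousOn.integrableOn_compact isCompact_Icc
    · exact Eventually.of_forall fun α => mul_nonneg (hk0 α) (JJ_nonneg92 _ _ _ _)
  simp only [e1]
  have hcont : Continuous fun q : ℝ × ℝ => k0 β q.2 * JJ f0 (hom (ga (H q.1) q.2)) ((2 : ℝ) ^ p) (2 ^ n) := (hk.comp continuous_snd).mul (JJ_joint92 hc _ _)
  rw [lintegral_lintegral_swap]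
  swap
  · exact (hcont.measurable.ennreal_ofReal).aemeasurable
  have e2 : ∀ α ∈ Icc (-α₁) α₁, ∫⁻ s in Icc a b, ENNReal.ofReal (k0 β α * JJ f0 (hom (ga (H s) α)) ((2 : ℝ) ^ p) (2 ^ n)) ≤ ENNReal.ofReal (k0 β α) * ENNReal.ofReal D := by
    intro α hα
    have e3 : ∀ s, ENNReal.ofReal (k0 β α * JJ f0 (hom (ga (H s) α)) ((2 : ℝ) ^ p) (2 ^ n)) =
        ENNReal.ofReal (k0 β α) * ENNReal.ofReal (JJ f0 (hom (ga (H s) α)) ((2 : ℝ) ^ p) (2 ^ n)) := fun s => ENNReal.ofReal_mul (hk0 α)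
    simp only [e3]
    rw [lintegral_const_mul _ (JJ_s92 hc α _ _).measurable.ennreal_ofReal]
    exact mul_le_mul_right (hm α hα) _
  refine (setLIntegral_mono' measurableSet_Icc e2).trans ?_
  rw [lintegral_mul_const _ hk.measurable.ennreal_ofReal]
  have e4 : ∫⁻ α in Icc (-α₁) α₁, ENNReal.ofReal (k0 β α) = ENNReal.ofReal (∫ α in Icc (-α₁) α₁, k0 β α) := by
    rw [ofReal_integral_eq_lintegral_ofReal]
    · exact hk.continuousOn.integrableOn_compact isCompact_Icc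
    · exact Eventually.of_forall fun α => hk0 α
  rw [e4, ← ENNReal.ofReal_mul (integral_nonneg fun α => hk0 α)]
  refine ENNReal.ofReal_le_ofReal (mul_le_mul_of_nonneg_right ?_ hD)
  rw [hβ]
  exact k0_mass92 h0 h1 (beta_pos92 p n)

private theorem geo92 {r : ℝ} (hr : 0 ≤ r) (hr1 : r < 1) (A : ℝ) : ∑' p : ℕ, ENNReal.ofReal (((p : ℝ) + 1) * (A * r ^ p)) < ⊤ := by
  have h1 : ‖r‖ < 1 := by rwa [norm_of_nonneg hr]
  have h2 := summable_pow_mul_geometric_of_norm_lt_one 1 h1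
  have h3 := summable_pow_mul_geometric_of_norm_lt_one 0 h1
  have h4 : Summable fun p : ℕ => ((p : ℝ) + 1) * (A * r ^ p) := by
    refine ((h2.add h3).mul_left A).congr fun p => ?_
    ring
  exact h4.tsum_ofReal_lt_top

/-- Borel-Cantelli over a compact interval -/
private theorem bc92 {W : ℕ → ℕ → ℝ → ℝ} (hWc : ∀ p n, Continuous (W p n)) {a b ε : ℝ} (hε : 0 < ε)
    (h : ∃ C : ℝ, 0 ≤ C ∧ ∀ p n : ℕ, n ≤ p → ((2 : ℝ) ^ p) ^ (1 / 10 : ℝ) ≤ (2 : ℝ) ^ n → (2 : ℝ) ^ n ≤ ((2 : ℝ) ^ p) ^ (4 / 9 + 1 / 1000 : ℝ) →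
      ∫⁻ s in Icc a b, ENNReal.ofReal (W p n s) ≤ ENNReal.ofReal (C * ((2 : ℝ) ^ p) ^ (ε / 2) * FR ((2 : ℝ) ^ p) ((2 : ℝ) ^ n))) :
    ∀ᵐ s ∂((volume : Measure ℝ).restrict (Icc a b)), ∃ C : ℝ, 0 ≤ C ∧ ∀ p n : ℕ, n ≤ p → ((2 : ℝ) ^ p) ^ (1 / 10 : ℝ) ≤ (2 : ℝ) ^ n →
      (2 : ℝ) ^ n ≤ ((2 : ℝ) ^ p) ^ (4 / 9 + 1 / 1000 : ℝ) → W p n s ≤ C * (((2 : ℝ) ^ p) ^ ε * FR ((2 : ℝ) ^ p) ((2 : ℝ) ^ n)) := by
  classical
  obtain ⟨C0, hC0, hm⟩ := h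
  have hX0 : ∀ p : ℕ, (0 : ℝ) < 2 ^ p := fun p => by positivity
  obtain ⟨Q, hQ⟩ : ∃ Q : ℕ → ℕ → Prop, Q = fun p n => ((2 : ℝ) ^ p) ^ (1 / 10 : ℝ) ≤ (2 : ℝ) ^ n ∧ (2 : ℝ) ^ n ≤ ((2 : ℝ) ^ p) ^ (4 / 9 + 1 / 1000 : ℝ) := ⟨_, rfl⟩
  obtain ⟨D, hD⟩ : ∃ D : ℕ → ℕ → ℝ, ∀ p n, D p n = ((2 : ℝ) ^ p) ^ ε * FR ((2 : ℝ) ^ p) ((2 : ℝ) ^ n) := ⟨_, fun _ _ => rfl⟩
  have hD0 : ∀ p n, 0 < D p n := by
    intro p n
    rw [hD]
    exact mul_pos (rpow_pos_of_pos (hX0 p) _) (FR_pos92 (hX0 p) (hX0 n))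
  obtain ⟨r, hr⟩ : ∃ r : ℝ, r = (2 : ℝ) ^ (-(ε / 2)) := ⟨_, rfl⟩
  have hr0 : 0 ≤ r := by
    rw [hr]
    positivity
  have hr1 : r < 1 := by
    rw [hr]
    exact rpow_lt_one_of_one_lt_of_neg (by norm_num) (by linarith)
  obtain ⟨G, hG⟩ : ∃ G : ℕ → ℕ → ℝ → ENNReal, ∀ p n s, G p n s = if n ≤ p ∧ Q p n then ENNReal.ofReal (W p n s / D p n) else 0 := ⟨_, fun _ _ _ => rfl⟩
  have hmeas : ∀ p n, Measurable (G p n) := by
    intro p n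
    by_cases hq : n ≤ p ∧ Q p n
    · have e1 : G p n = fun s => ENNReal.ofReal (W p n s / D p n) := by
        funext s
        rw [hG, if_pos hq]
      rw [e1]
      exact ((hWc _ _).div_const _).measurable.ennreal_ofReal
    · have e1 : G p n = fun _ => 0 := by
        funext s
        rw [hG, if_neg hq]
      rw [e1]
      exact measurable_const
  have hint : ∀ p n, ∫⁻ s in Icc a b, G p n s ≤ ENNReal.ofReal (C0 * r ^ p) := by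
    intro p n
    by_cases hq : n ≤ p ∧ Q p n
    · have e1 : ∀ s, G p n s = ENNReal.ofReal (1 / D p n) * ENNReal.ofReal (W p n s) := by
        intro s
        rw [hG, if_pos hq, ← ENNReal.ofReal_mul (by have := hD0 p n; positivity)]
        congr 1
        ring
      simp only [e1]
      rw [lintegral_const_mul _ (hWc _ _).measurable.ennreal_ofReal]
      obtain ⟨hnp, hq⟩ := hq
      rw [hQ] at hq
      have h3 := hm p n hnp hq.1 hq.2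
      refine (mul_le_mul_right h3 _).trans ?_
      rw [← ENNReal.ofReal_mul (by have := hD0 p n; positivity)]
      refine ENNReal.ofReal_le_ofReal (le_of_eq ?_)
      have h5 : ((2 : ℝ) ^ p) ^ (ε / 2) = r ^ p * ((2 : ℝ) ^ p) ^ ε := by
        rw [hr, ← rpow_natCast ((2 : ℝ) ^ (-(ε / 2))) p, ← rpow_mul (by norm_num), ← rpow_natCast 2 p, ← rpow_mul (by norm_num),
          ← rpow_mul (by norm_num), ← rpow_add (by norm_num)]
        congr 1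
        ring
      have h8 := (FR_pos92 (hX0 p) (hX0 n)).ne'
      have h9 : ((2 : ℝ) ^ p) ^ ε ≠ 0 := (rpow_pos_of_pos (hX0 p) _).ne'
      rw [h5, hD, one_div, mul_inv]
      calc (((2 : ℝ) ^ p) ^ ε)⁻¹ * (FR ((2 : ℝ) ^ p) ((2 : ℝ) ^ n))⁻¹ * (C0 * (r ^ p * ((2 : ℝ) ^ p) ^ ε) * FR ((2 : ℝ) ^ p) ((2 : ℝ) ^ n)) =
            C0 * r ^ p * ((((2 : ℝ) ^ p) ^ ε)⁻¹ * ((2 : ℝ) ^ p) ^ ε) * ((FR ((2 : ℝ) ^ p) ((2 : ℝ) ^ n))⁻¹ * FR ((2 : ℝ) ^ p) ((2 : ℝ) ^ n)) := by ring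
        _ = C0 * r ^ p := by rw [inv_mul_cancel₀ h9, inv_mul_cancel₀ h8, mul_one, mul_one]
    · have e1 : ∀ s, G p n s = 0 := by
        intro s
        rw [hG, if_neg hq]
      simp only [e1, lintegral_zero]
      exact bot_le
  -- the series
  obtain ⟨Φ, hΦ⟩ : ∃ Φ : ℝ → ENNReal, Φ = fun s => ∑' p : ℕ, ∑ n ∈ Finset.range (p + 1), G p n s := ⟨_, rfl⟩
  have hΦm : Measurable Φ := by
    rw [hΦ]
    exact Measurable.tsum fun p => Finset.measurable_sum _ fun n _ => hmeas p n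
  have hΦi : ∫⁻ s in Icc a b, Φ s ≠ ⊤ := by
    rw [hΦ, lintegral_tsum (fun p => (Finset.measurable_sum _ fun n _ => hmeas p n).aemeasurable)]
    refine ne_of_lt (lt_of_le_of_lt (ENNReal.tsum_le_tsum fun p => ?_) (geo92 hr0 hr1 C0))
    rw [lintegral_finsetSum _ fun n _ => hmeas p n]
    calc ∑ n ∈ Finset.range (p + 1), ∫⁻ s in Icc a b, G p n s
        ≤ ∑ _n ∈ Finset.range (p + 1), ENNReal.ofReal (C0 * r ^ p) := Finset.sum_le_sum fun n _ => hint p n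
      _ = ENNReal.ofReal (((p : ℝ) + 1) * (C0 * r ^ p)) := by
          rw [Finset.sum_const, Finset.card_range, nsmul_eq_mul, ENNReal.ofReal_mul (show (0 : ℝ) ≤ (p : ℝ) + 1 by positivity),
            ← Nat.cast_succ, ENNReal.ofReal_natCast]
  have h6 := ae_lt_top hΦm hΦi
  filter_upwards [h6] with s hs
  refine ⟨(Φ s).toReal, ENNReal.toReal_nonneg, fun p n hn hq1 hq2 => ?_⟩
  have hq : n ≤ p ∧ Q p n := by
    rw [hQ]
    exact ⟨hn, hq1, hq2⟩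
  have h7 : G p n s ≤ Φ s := by
    rw [hΦ]
    refine le_trans ?_ (ENNReal.le_tsum p)
    exact Finset.single_le_sum (f := fun n => G p n s) (fun _ _ => bot_le) (Finset.mem_range.2 (Nat.lt_succ_iff.2 hn))
  rw [hG, if_pos hq] at h7
  have h8 : W p n s / D p n ≤ (Φ s).toReal := by
    rw [← ENNReal.ofReal_le_iff_le_toReal hs.ne]
    exact h7
  rw [div_le_iff₀ (hD0 p n), hD] at h8
  exact h8

private theorem FR_TB92 {X N e : ℝ} (hX : 1 ≤ X) (hN : 1 ≤ N) (he : 0 < e) (hν : X ^ (1 / 9 - e / 6 : ℝ) ≤ N) :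
    FR X N ≤ 2 * (X ^ (e / 2) * TB 12 (5 / 9) X N) := by
  have hX0 : 0 < X := by linarith
  have hN0 : 0 < N := by linarith
  have e1 : TB 12 (5 / 9) X N = X ^ (2 / 3 : ℝ) * N ^ 15 := by
    unfold TB
    rw [mul_pow, ← rpow_natCast (X ^ (5 / 9 - 1 / 2 : ℝ)), ← rpow_mul hX0.le, ← rpow_natCast (N ^ (3 / 2 : ℝ)), ← rpow_mul hN0.le,
      show ((5 / 9 - 1 / 2 : ℝ) * ((12 : ℕ) : ℝ)) = 2 / 3 by norm_num, show ((3 / 2 : ℝ) * ((12 : ℕ) : ℝ)) = ((18 : ℕ) : ℝ) by norm_num, rpow_natCast]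
    field_simp
  have e2 : X * X ^ (-(1 / 3) : ℝ) = X ^ (2 / 3 : ℝ) := by
    nth_rewrite 1 [← rpow_one X]
    rw [← rpow_add hX0]
    norm_num
  have h1 : X ≤ X ^ (e / 2) * X ^ (2 / 3 : ℝ) * N ^ 3 := by
    have h2 : (X ^ (1 / 9 - e / 6 : ℝ)) ^ 3 ≤ N ^ 3 := pow_le_pow_left₀ (by positivity) hν 3
    have h3 : (X ^ (1 / 9 - e / 6 : ℝ)) ^ 3 = X ^ (1 / 3 - e / 2 : ℝ) := by
      rw [← rpow_natCast, ← rpow_mul hX0.le]
      congr 1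
      push_cast
      ring
    rw [h3] at h2
    calc X = X ^ (e / 2) * X ^ (2 / 3 : ℝ) * X ^ (1 / 3 - e / 2 : ℝ) := by
          rw [← rpow_add hX0, ← rpow_add hX0]
          rw [show e / 2 + 2 / 3 + (1 / 3 - e / 2) = 1 by ring, rpow_one]
      _ ≤ X ^ (e / 2) * X ^ (2 / 3 : ℝ) * N ^ 3 := mul_le_mul_of_nonneg_left h2 (by positivity)
  have h2 : 1 ≤ X ^ (e / 2) := one_le_rpow hX (by linarith)
  rw [e1]
  unfold FR
  have h3 := mul_le_mul_of_nonneg_right h1 (show 0 ≤ N ^ 12 by positivity)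
  have h4 := mul_le_mul_of_nonneg_right h2 (show 0 ≤ X ^ (2 / 3 : ℝ) * N ^ 15 by positivity)
  have e3 : X * (N ^ 12 + N ^ 15 * X ^ (-(1 / 3) : ℝ)) = X * N ^ 12 + (X * X ^ (-(1 / 3) : ℝ)) * N ^ 15 := by ring
  rw [e3, e2]
  have e4 : X ^ (e / 2) * X ^ (2 / 3 : ℝ) * N ^ 3 * N ^ 12 = X ^ (e / 2) * (X ^ (2 / 3 : ℝ) * N ^ 15) := by ring
  linarith

/-- the standard frame does not change the oval -/
theorem Hf_f0 {G : ℝ → ℝ} (hp : Function.Periodic G (2 * π)) : Hf G f0 = G := by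
  funext t
  have e1 : fv f0 (cos t) (sin t) = (cos t, sin t) := by
    unfold fv f0
    simp
  unfold Hf
  rw [e1]
  have h1 : nr (cos t, sin t) = 1 := by
    rw [nr_eq]
    simp only
    rw [cos_sq_add_sin_sq, sqrt_one]
  have h2 : G (Pool.Agent.Helper22.LP.tr (cos t, sin t)) = G t := by
    refine Pool.Agent.Helper22.LP.tr_angle (r := 1) one_pos ?_ ?_ hp
    · simp
    · simp
  unfold hom
  rw [h1, h2, one_mul]

/-- one member of the family: the lattice points -/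
private theorem memb92 {H : ℝ → ℝ → ℝ} (hc : ∀ v : ℝ × ℝ, Continuous fun q : ℝ × ℝ => hom (ga (H q.1) q.2) v) {α₁ : ℝ} (h0 : 0 < α₁)
    {s : ℝ} (hH : IsSupp (H s)) (h5 : ContDiff ℝ 5 (H s))
    (hs : ∀ ε : ℝ, 0 < ε → ∃ C : ℝ, 0 ≤ C ∧ ∀ p n : ℕ, n ≤ p → ((2 : ℝ) ^ p) ^ (1 / 10 : ℝ) ≤ (2 : ℝ) ^ n →
      (2 : ℝ) ^ n ≤ ((2 : ℝ) ^ p) ^ (4 / 9 + 1 / 1000 : ℝ) → Wm H α₁ p n s ≤ C * (((2 : ℝ) ^ p) ^ ε * FR ((2 : ℝ) ^ p) ((2 : ℝ) ^ n)))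
    {ε : ℝ} (hε : 0 < ε) : ∃ C : ℝ, ∀ R : ℝ, 1 ≤ R → ∀ c : ℝ × ℝ, |cntc (H s) c R - area (H s) * R ^ 2| ≤ C * R ^ (5 / 9 + ε) := by
  have hf : fdet f0 ≠ 0 := by
    unfold fdet f0
    norm_num
  obtain ⟨α₀, c₁, Bf, ha0, ha1, hc₁, hc₁1, hBf, hjc, hfam⟩ := Pool.Agent.Helper92.LA.fam hH h5
  obtain ⟨α₂, hα₂⟩ : ∃ α₂ : ℝ, α₂ = min α₀ α₁ := ⟨_, rfl⟩
  have hα₂0 : 0 < α₂ := by
    rw [hα₂]
    exact lt_min ha0 h0
  have hα₂a : α₂ ≤ α₀ := by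
    rw [hα₂]
    exact min_le_left _ _
  have hα₂b : α₂ ≤ α₁ := by
    rw [hα₂]
    exact min_le_right _ _
  obtain ⟨e', he'⟩ : ∃ e' : ℝ, e' = min (ε / 2) (1 / 1000) := ⟨_, rfl⟩
  have he0 : 0 < e' := by
    rw [he']
    exact lt_min (by linarith) (by norm_num)
  have he1 : e' ≤ 1 / 1000 := by
    rw [he']
    exact min_le_right _ _
  have he2 : 2 * e' ≤ ε := by
    have : e' ≤ ε / 2 := by
      rw [he']
      exact min_le_left _ _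
    linarith
  obtain ⟨C₀, hC₀, hW⟩ := hs (e' / 2) (by linarith)
  obtain ⟨K, hK⟩ : ∃ K : ℝ, K = ∫ α in Icc (-α₂) α₂, k0 (1 / sqrt ((2 : ℝ) ^ 0 * ((2 ^ 0 : ℕ) : ℝ))) α * J20 f0 (hom (ga (H s) α)) ((2 : ℝ) ^ 0) (2 ^ 0) := ⟨_, rfl⟩
  obtain ⟨C₁, hC₁⟩ : ∃ C₁ : ℝ, C₁ = C₀ * 2 + |K| := ⟨_, rfl⟩
  have hC₁0 : 0 ≤ C₁ := by
    rw [hC₁]
    positivity
  obtain ⟨C, hC⟩ := frame_core hH hα₂0 (hα₂a.trans_lt ha1) hjc (fun α hα => (hfam α ⟨by linarith [hα.1], by linarith [hα.2]⟩).2) hf (θ := 5 / 9)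
    (ν₂ := 1 / 9 - e' / 6) (ν₃ := 4 / 9 + 1 / 1000) (by norm_num) (by norm_num) he0 (by linarith) (by linarith) hC₁0
    (by
      intro p n hn q1 q2
      have hp : p = 0 := by
        by_contra hp
        have h1 : (1 : ℝ) < 2 ^ p := one_lt_pow₀ (by norm_num) hp
        have h2 := q1.trans q2
        have h3 : ((2 : ℝ) ^ p) ^ (1 / 9 - e' / 6 : ℝ) < ((2 : ℝ) ^ p) ^ (2 * (5 / 9) - 1 : ℝ) :=
          rpow_lt_rpow_of_exponent_lt h1 (by linarith)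
        linarith
      have hn0 : n = 0 := by omega
      subst hp hn0
      rw [← hK]
      have e1 : TB 20 (5 / 9) ((2 : ℝ) ^ 0) ((2 : ℝ) ^ 0) = 1 := by
        unfold TB
        norm_num
      rw [e1]
      simp only [pow_zero, one_rpow, mul_one]
      rw [hC₁]
      have h1 := le_abs_self K
      linarith)
    (by
      intro p n hn q1 q2
      have hX1 : (1 : ℝ) ≤ 2 ^ p := one_le_pow₀ (by norm_num)
      have hN1 : (1 : ℝ) ≤ 2 ^ n := one_le_pow₀ (by norm_num)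
      have q3 : ((2 : ℝ) ^ p) ^ (1 / 10 : ℝ) ≤ (2 : ℝ) ^ n := (rpow_le_rpow_of_exponent_le hX1 (by linarith)).trans q1
      have h1 := hW p n hn q3 q2
      have h2 := FR_TB92 hX1 hN1 he0 q1
      have hT := (TB_pos (q := 12) (θ := 5 / 9) (show (0 : ℝ) < 2 ^ p by positivity) (show (0 : ℝ) < 2 ^ n by positivity)).le
      have hXe : 0 ≤ ((2 : ℝ) ^ p) ^ (e' / 2) := by positivity
      have h3 : Wm H α₁ p n s ≤ C₀ * 2 * (((2 : ℝ) ^ p) ^ e' * TB 12 (5 / 9) ((2 : ℝ) ^ p) (2 ^ n)) := by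
        refine h1.trans ?_
        have h4 := mul_le_mul_of_nonneg_left (mul_le_mul_of_nonneg_left h2 hXe) hC₀
        refine h4.trans (le_of_eq ?_)
        have h5 : ((2 : ℝ) ^ p) ^ e' = ((2 : ℝ) ^ p) ^ (e' / 2) * ((2 : ℝ) ^ p) ^ (e' / 2) := by
          rw [← rpow_add (by positivity)]
          congr 1
          ring
        rw [h5]
        ring
      have hk := Pool.Agent.Helper22.OV.o3_k0_cont (beta_pos92 p n)
      have h5 : ∫ α in Icc (-α₂) α₂, k0 (1 / sqrt ((2 : ℝ) ^ p * ((2 ^ n : ℕ) : ℝ))) α * JJ f0 (hom (ga (H s) α)) ((2 : ℝ) ^ p) (2 ^ n) ≤ Wm H α₁ p n s := by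
        unfold Wm
        refine setIntegral_mono_set ?_ (Eventually.of_forall fun α => mul_nonneg (Pool.Agent.Helper22.OV.o3_k0_nonneg (beta_pos92 p n) α) (JJ_nonneg92 _ _ _ _))
          (Eventually.of_forall fun x hx => ⟨by linarith [hx.1], by linarith [hx.2]⟩)
        exact (hk.mul (JJ_a92 hc s _ _)).continuousOn.integrableOn_compact isCompact_Icc
      have h9 : 0 ≤ |K| * (((2 : ℝ) ^ p) ^ e' * TB 12 (5 / 9) ((2 : ℝ) ^ p) (2 ^ n)) := by positivity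
      rw [hC₁]
      refine (h5.trans h3).trans ?_
      linarith)
  refine ⟨|C|, fun R hR c => ?_⟩
  have h6 := hC R hR c
  rw [Hf_f0 hH.per] at h6
  refine h6.trans ?_
  calc C * R ^ (5 / 9 + 2 * e') ≤ |C| * R ^ (5 / 9 + 2 * e') := mul_le_mul_of_nonneg_right (le_abs_self C) (by positivity)
    _ ≤ |C| * R ^ (5 / 9 + ε) := mul_le_mul_of_nonneg_left (rpow_le_rpow_of_exponent_le hR (by linarith)) (abs_nonneg C)

/-- from the moments over a curve of support functions to the lattice points -/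
theorem core {H : ℝ → ℝ → ℝ} (hc : ∀ v : ℝ × ℝ, Continuous fun q : ℝ × ℝ => hom (ga (H q.1) q.2) v) {a b α₁ : ℝ} (h0 : 0 < α₁) (h1 : α₁ < π / 2)
    (hH : ∀ s ∈ Icc a b, IsSupp (H s)) (h5 : ∀ s ∈ Icc a b, ContDiff ℝ 5 (H s))
    (hm : ∀ η : ℝ, 0 < η → ∃ C : ℝ, 1 ≤ C ∧ ∀ (X : ℝ) (N : ℕ), 1 ≤ X → 1 ≤ N → X ^ (1 / 10 : ℝ) ≤ N → (N : ℝ) ≤ X ^ (4 / 9 + 1 / 1000 : ℝ) →
      ∀ α ∈ Icc (-α₁) α₁, ∫⁻ s in Icc a b, ENNReal.ofReal (JJ f0 (hom (ga (H s) α)) X N) ≤ ENNReal.ofReal (C * X ^ η * FR X N)) :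
    ∀ᵐ s ∂((volume : Measure ℝ).restrict (Icc a b)), ∀ ε : ℝ, 0 < ε → ∃ C : ℝ, ∀ R : ℝ, 1 ≤ R → ∀ c : ℝ × ℝ,
      |cntc (H s) c R - area (H s) * R ^ 2| ≤ C * R ^ (5 / 9 + ε) := by
  have hN1 : ∀ n : ℕ, 1 ≤ 2 ^ n := fun n => Nat.one_le_two_pow
  have hNr : ∀ n : ℕ, ((2 ^ n : ℕ) : ℝ) = (2 : ℝ) ^ n := fun n => by push_cast; rfl
  have h2 : ∀ᵐ s ∂((volume : Measure ℝ).restrict (Icc a b)), ∀ j : ℕ, ∃ C : ℝ, 0 ≤ C ∧ ∀ p n : ℕ, n ≤ p → ((2 : ℝ) ^ p) ^ (1 / 10 : ℝ) ≤ (2 : ℝ) ^ n →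
      (2 : ℝ) ^ n ≤ ((2 : ℝ) ^ p) ^ (4 / 9 + 1 / 1000 : ℝ) → Wm H α₁ p n s ≤ C * (((2 : ℝ) ^ p) ^ (1 / ((j : ℝ) + 1)) * FR ((2 : ℝ) ^ p) ((2 : ℝ) ^ n)) := by
    rw [ae_all_iff]
    intro j
    have hj : (0 : ℝ) < 1 / ((j : ℝ) + 1) := by positivity
    obtain ⟨C, hC, hm1⟩ := hm (1 / ((j : ℝ) + 1) / 2) (by positivity)
    refine bc92 (fun p n => Wm_cont92 hc α₁ p n) hj ⟨20 * C, by positivity, fun p n hn q1 q2 => ?_⟩
    have hX1 : (1 : ℝ) ≤ 2 ^ p := one_le_pow₀ (by norm_num)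
    have h3 := hm1 ((2 : ℝ) ^ p) (2 ^ n) hX1 (hN1 n) (by rw [hNr]; exact q1) (by rw [hNr]; exact q2)
    rw [hNr] at h3
    have hD : 0 ≤ C * ((2 : ℝ) ^ p) ^ (1 / ((j : ℝ) + 1) / 2) * FR ((2 : ℝ) ^ p) ((2 : ℝ) ^ n) := by
      have := (FR_pos92 (show (0 : ℝ) < 2 ^ p by positivity) (show (0 : ℝ) < 2 ^ n by positivity)).le
      positivity
    refine (Wm_int92 hc h0 h1 p n hD h3).trans (le_of_eq ?_)
    congr 1
    ring
  filter_upwards [h2, ae_restrict_mem measurableSet_Icc] with s hs hmem ε hε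
  refine memb92 hc h0 (hH s hmem) (h5 s hmem) (fun ε' hε' => ?_) hε
  obtain ⟨j, hj⟩ := exists_nat_one_div_lt hε'
  obtain ⟨C, hC, h3⟩ := hs j
  refine ⟨C, hC, fun p n hn q1 q2 => (h3 p n hn q1 q2).trans ?_⟩
  have hX1 : (1 : ℝ) ≤ 2 ^ p := one_le_pow₀ (by norm_num)
  refine mul_le_mul_of_nonneg_left (mul_le_mul_of_nonneg_right ?_ (FR_pos92 (by positivity) (by positivity)).le) hC
  exact rpow_le_rpow_of_exponent_le hX1 hj.le

end Pool.Agent.Helper92.GV
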