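import Pool.Agent.Helper92.GV.Main
import Pool.Agent.Helper60.GM.Mom

/-!
# Generic curves of ovals (MP_fb29e9_nt): the theorem for the standard lattice
-/

open MeasureTheory Real Set Filter Topology

set_option autoImplicit false

namespace Pool.Agent.Helper92.GV

open Pool.Agent.Helper22.AE
open Pool.Agent.Helper92.LA (lcnt)
open Pool.Agent.Helper75.GCF (Mo)

/-- almost every member of a curve of ovals with `v = ∂/∂s log ρ` a Morse function -/
theorem mainG {H : ℝ → ℝ → ℝ} (h : ContDiff ℝ 7 fun q : ℝ × ℝ => H q.1 q.2) (hp : ∀ s, Function.Periodic (H s) (2 * π)) :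
    ∀ᵐ s : ℝ, (∀ θ, 0 < rho (H s) θ) → Mo H s → ∀ ε : ℝ, 0 < ε → ∃ C : ℝ, ∀ R : ℝ, 1 ≤ R → ∀ c : ℝ × ℝ,
      |lcnt ((1, 0), (0, 1)) (H s) c R - area (H s) * R ^ 2| ≤ C * R ^ (5 / 9 + ε) :=
  mainG_of (fun _ _ _ hη hB₀ hB => Pool.Agent.Helper60.GM.momG hη hB₀ hB) h hp

end Pool.Agent.Helper92.GV
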