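import Pool.Agent.Helper92.GV.Cones
import Pool.Agent.Helper75.GC.FamH

/-!
# Generic curves of ovals (MP_fb29e9_nt): from the moment theorem for families of phases to the lattice points
-/

open MeasureTheory Real Set Filter Topology

set_option autoImplicit false

namespace Pool.Agent.Helper92.GV

open Pool.Agent.Helper22.AE
open Pool.Agent.Helper22.AC (cntc ga)
open Pool.Agent.Helper60.RT (FR cn)
open Pool.Agent.Helper60.GM (Fam mf RN)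
open Pool.Agent.Helper92.LA (lcnt)
open Pool.Agent.Helper22.LP (hom nr tr)
open Pool.Agent.Helper75.GCF (Mo famH famH_all famH_q shf_rho' shf_Mo shf_sm supp_near Gf Gf_sm)
open Pool.Agent.Helper22.OV (shf cntc_shf area_shf)

private theorem hom_cont92 {G : ℝ → ℝ → ℝ} (h : ContDiff ℝ 7 fun q : ℝ × ℝ => G q.1 q.2) (v : ℝ × ℝ) : Continuous fun q : ℝ × ℝ => hom (ga (G q.1) q.2) v := by
  have h0 : ContDiff ℝ ((6 + 1 : ℕ) : ℕ∞) fun q : ℝ × ℝ => G q.1 q.2 := h.of_le (by norm_cast)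
  have h1 : Continuous (Gf G) := (Gf_sm h0).continuous
  have h2 : Continuous fun q : ℝ × ℝ => ((q.2, q.1, tr v) : ℝ × ℝ × ℝ) := by fun_prop
  have h3 : Continuous fun q : ℝ × ℝ => nr v * Gf G (q.2, q.1, tr v) := continuous_const.mul (h1.comp h2)
  have e1 : (fun q : ℝ × ℝ => hom (ga (G q.1) q.2) v) = fun q : ℝ × ℝ => nr v * Gf G (q.2, q.1, tr v) := by
    funext q
    rfl
  rw [e1]
  exact h3

private theorem FR_nonneg92 {X : ℝ} {N : ℕ} (hX : 1 ≤ X) : 0 ≤ FR X N := by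
  unfold FR
  positivity

/-- the members near a generic member -/
theorem local_ae (mom : ∀ η B₀ B : ℝ, 0 < η → 1 ≤ B₀ → 1 ≤ B → ∃ C : ℝ, 1 ≤ C ∧ ∀ F : Fam, F.Ok B₀ → ∀ (X : ℝ) (N : ℕ), 1 ≤ X → 1 ≤ N →
      X ^ (1 / 10 : ℝ) ≤ N → (N : ℝ) ≤ X ^ (4 / 9 + 1 / 1000 : ℝ) → RN F (1 / 2) (1 / 2) B X (cn N) ≤ ENNReal.ofReal (C * X ^ η * FR X N))
    {H : ℝ → ℝ → ℝ} (h : ContDiff ℝ 7 fun q : ℝ × ℝ => H q.1 q.2) (hp : ∀ s, Function.Periodic (H s) (2 * π)) {s₀ : ℝ} (hr : ∀ θ, 0 < rho (H s₀) θ) (hv : Mo H s₀) :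
    ∃ δ : ℝ, 0 < δ ∧ ∀ᵐ s ∂((volume : Measure ℝ).restrict (Icc (s₀ - δ / 2) (s₀ + δ / 2))), ∀ ε : ℝ, 0 < ε → ∃ C : ℝ, ∀ R : ℝ, 1 ≤ R → ∀ c : ℝ × ℝ,
      |cntc (H s) c R - area (H s) * R ^ 2| ≤ C * R ^ (5 / 9 + ε) := by
  obtain ⟨v, δ₀, hδ₀, hsup⟩ := supp_near h hp hr
  obtain ⟨G, hG⟩ : ∃ G : ℝ → ℝ → ℝ, G = fun s => shf (H s) v := ⟨_, rfl⟩
  have g7 : ContDiff ℝ 7 fun q : ℝ × ℝ => G q.1 q.2 := by
    rw [hG]
    exact shf_sm h v
  have g7' : ContDiff ℝ ((7 : ℕ) : ℕ∞) fun q : ℝ × ℝ => G q.1 q.2 := g7.of_le (by norm_cast)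
  have gp : ∀ s, Function.Periodic (G s) (2 * π) := by
    intro s t
    rw [hG]
    simp only
    unfold shf
    rw [hp s t, cos_add_two_pi, sin_add_two_pi]
  have gr : ∀ θ, 0 < rho (G s₀) θ := by
    intro θ
    rw [hG]
    simp only
    rw [shf_rho' h]
    exact hr θ
  have gv : Mo G s₀ := by
    rw [hG]
    exact shf_Mo h v hv
  obtain ⟨Φ, hΦ⟩ : ∃ Φ : Finset ℝ, Φ = (Finset.range 4).image (fun j : ℕ => (j : ℝ) * (π / 2)) := ⟨_, rfl⟩
  obtain ⟨δ₁, hδ₁, hfam⟩ := famH_all g7' gr gv Φ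
  obtain ⟨δ, hδd⟩ : ∃ δ : ℝ, δ = min δ₁ (min δ₀ (1 / 2)) := ⟨_, rfl⟩
  have hδ : 0 < δ := by
    rw [hδd]
    exact lt_min hδ₁ (lt_min hδ₀ (by norm_num))
  have hδa : δ ≤ δ₁ := by
    rw [hδd]
    exact min_le_left _ _
  have hδb : δ ≤ δ₀ := by
    rw [hδd]
    exact (min_le_right _ _).trans (min_le_left _ _)
  have hδc : δ ≤ 1 / 2 := by
    rw [hδd]
    exact (min_le_right _ _).trans (min_le_right _ _)
  obtain ⟨B, hB, hok⟩ := hfam δ hδ hδa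
  have hmem : ∀ s ∈ Icc (s₀ - δ / 2) (s₀ + δ / 2), |s - s₀| ≤ δ₀ := by
    intro s hs
    rw [abs_le]
    constructor
    · linarith [hs.1]
    · linarith [hs.2]
  have hpi := pi_gt_three
  have key := core (H := G) (fun w => hom_cont92 g7 w) (a := s₀ - δ / 2) (b := s₀ + δ / 2) (α₁ := δ) hδ (by linarith)
    (fun s hs => by
      rw [hG]
      exact hsup s (hmem s hs))
    (fun s _ => (g7.of_le (by norm_num)).comp (contDiff_const.prodMk contDiff_id))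
    (by
      intro η hη
      obtain ⟨C, hC, hm⟩ := mom η B 8 hη hB (by norm_num)
      refine ⟨4 ^ 12 * δ * C + 1, ?_, fun X N hX hN h1 h2 α hα => ?_⟩
      · have : 0 ≤ 4 ^ 12 * δ * C := by positivity
        linarith
      · have hα2 : |α| ≤ 2 * δ := by
          rw [abs_le]
          constructor
          · linarith [hα.1]
          · linarith [hα.2]
        have hFR : 0 ≤ FR X N := FR_nonneg92 hX
        have hD : 0 ≤ C * X ^ η * FR X N := by positivity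
        have hjΦ : ∀ j : ℕ, j < 4 → (j : ℝ) * (π / 2) ∈ Φ := by
          intro j hj
          rw [hΦ, Finset.mem_image]
          exact ⟨j, Finset.mem_range.2 hj, rfl⟩
        have h3 := curve_int (H := G) (α := α) (s₀ := s₀) hδ (fun j => famH G ((j : ℝ) * (π / 2)) α s₀ δ)
          (fun j _ s t => by
            rw [famH_q gp]
            rfl)
          (fun j hj => (hok α hα2 _ (hjΦ j hj)).cont) hX hN hD (fun j hj => hm _ (hok α hα2 _ (hjΦ j hj)) X N hX hN h1 h2)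
        refine h3.trans (ENNReal.ofReal_le_ofReal ?_)
        have h4 : 0 ≤ X ^ η * FR X N := by positivity
        calc 4 ^ 12 * δ * (C * X ^ η * FR X N) = 4 ^ 12 * δ * C * (X ^ η * FR X N) := by ring
          _ ≤ (4 ^ 12 * δ * C + 1) * (X ^ η * FR X N) := mul_le_mul_of_nonneg_right (by linarith) h4
          _ = (4 ^ 12 * δ * C + 1) * X ^ η * FR X N := by ring)
  refine ⟨δ, hδ, ?_⟩
  filter_upwards [key] with s hs ε hε
  obtain ⟨C, hC⟩ := hs ε hε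
  refine ⟨C, fun R hR c => ?_⟩
  have h5 := hC R hR (c.1 - R * v.1, c.2 - R * v.2)
  rw [hG] at h5
  simp only at h5
  rwa [cntc_shf, area_shf] at h5

/-- for the standard lattice the two counts agree -/
theorem lcnt_std (H : ℝ → ℝ) (c : ℝ × ℝ) (R : ℝ) : lcnt ((1, 0), (0, 1)) H c R = cntc H c R := by
  unfold lcnt cntc
  simp

/-- from the moment theorem to the lattice points: almost every member of a curve of ovals -/
theorem mainG_of (mom : ∀ η B₀ B : ℝ, 0 < η → 1 ≤ B₀ → 1 ≤ B → ∃ C : ℝ, 1 ≤ C ∧ ∀ F : Fam, F.Ok B₀ → ∀ (X : ℝ) (N : ℕ), 1 ≤ X → 1 ≤ N →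
      X ^ (1 / 10 : ℝ) ≤ N → (N : ℝ) ≤ X ^ (4 / 9 + 1 / 1000 : ℝ) → RN F (1 / 2) (1 / 2) B X (cn N) ≤ ENNReal.ofReal (C * X ^ η * FR X N))
    {H : ℝ → ℝ → ℝ} (h : ContDiff ℝ 7 fun q : ℝ × ℝ => H q.1 q.2) (hp : ∀ s, Function.Periodic (H s) (2 * π)) :
    ∀ᵐ s : ℝ, (∀ θ, 0 < rho (H s) θ) → Mo H s → ∀ ε : ℝ, 0 < ε → ∃ C : ℝ, ∀ R : ℝ, 1 ≤ R → ∀ c : ℝ × ℝ,
      |lcnt ((1, 0), (0, 1)) (H s) c R - area (H s) * R ^ 2| ≤ C * R ^ (5 / 9 + ε) := by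
  simp only [lcnt_std]
  rw [ae_iff]
  refine measure_null_of_locally_null _ fun s₀ hs₀ => ?_
  rw [mem_ofPred_eq, Classical.not_imp, Classical.not_imp] at hs₀
  obtain ⟨hr, hv, -⟩ := hs₀
  obtain ⟨δ, hδ, h1⟩ := local_ae mom h hp hr hv
  refine ⟨_, inter_mem_nhdsWithin _ (Icc_mem_nhds (show s₀ - δ / 2 < s₀ by linarith) (show s₀ < s₀ + δ / 2 by linarith)), ?_⟩
  rw [ae_restrict_iff' measurableSet_Icc, ae_iff] at h1
  refine measure_mono_null ?_ h1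
  rintro s ⟨h2, h3⟩
  rw [mem_ofPred_eq, Classical.not_imp, Classical.not_imp] at h2
  rw [mem_ofPred_eq, Classical.not_imp]
  exact ⟨h3, h2.2.2⟩

end Pool.Agent.Helper92.GV
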